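import Mathlib

set_option autoImplicit false

namespace Pool.Agent.Results.MP_1d13cc_al.FgCancellativeCounterexample

/-- `H` is unit-cancellative: `x * y ≠ x` and `y * x ≠ x` whenever `y` is not a unit. -/
def UnitCancellative (H : Type) [Monoid H] : Prop :=
  ∀ x y : H, ¬ IsUnit y → x * y ≠ x ∧ y * x ≠ x

/-- `H` is acyclic: `u * x * v ≠ x` whenever `u` or `v` is not a unit. -/
def Acyclic (H : Type) [Monoid H] : Prop :=
  ∀ u v x : H, (¬ IsUnit u ∨ ¬ IsUnit v) → u * x * v ≠ x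

/-- The principal two-sided ideal `H a H = {x * a * y : x, y ∈ H}`. -/
def principalIdeal {H : Type} [Monoid H] (a : H) : Set H :=
  {z | ∃ x y : H, x * a * y = z}

/-- ACCP: there is no infinite strictly increasing sequence of principal two-sided ideals. -/
def ACCP (H : Type) [Monoid H] : Prop :=
  ¬ ∃ a : ℕ → H, ∀ n : ℕ, principalIdeal (a n) ⊂ principalIdeal (a (n + 1))

/-- The affine permutation `t ↦ 2 ^ k * t + β` of the rationals. -/
def aff (k : ℤ) (β : ℚ) : Equiv.Perm ℚ where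
  toFun t := 2 ^ k * t + β
  invFun t := (2 ^ k)⁻¹ * (t - β)
  left_inv t := by
    have h : (2 : ℚ) ^ k ≠ 0 := zpow_ne_zero _ two_ne_zero
    field_simp
    ring
  right_inv t := by
    have h : (2 : ℚ) ^ k ≠ 0 := zpow_ne_zero _ two_ne_zero
    field_simp
    ring

theorem aff_apply (k : ℤ) (β t : ℚ) : aff k β t = 2 ^ k * t + β := rfl

theorem aff_mul (k l : ℤ) (β γ : ℚ) :
    aff k β * aff l γ = aff (k + l) (2 ^ k * γ + β) := by
  ext t
  simp only [Equiv.Perm.mul_apply, aff_apply, zpow_add₀ (two_ne_zero : (2 : ℚ) ≠ 0)]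
  ring

theorem aff_zero_zero : aff 0 0 = 1 := by
  ext t
  simp [aff_apply]

theorem aff_inj {k l : ℤ} {β γ : ℚ} (h : aff k β = aff l γ) : β = γ := by
  have := congrArg (fun f : Equiv.Perm ℚ => f 0) h
  simpa [aff_apply] using this

/-- non-negative dyadic rationals -/
def D (β : ℚ) : Prop := ∃ m n : ℕ, β * 2 ^ n = m

theorem D_nonneg {β : ℚ} (h : D β) : 0 ≤ β := by
  obtain ⟨m, n, h⟩ := h
  have h2 : (0 : ℚ) < 2 ^ n := by positivity
  have h3 : (0 : ℚ) ≤ β * 2 ^ n := by rw [h]; positivity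
  exact nonneg_of_mul_nonneg_left h3 h2

theorem D_add {β γ : ℚ} (hb : D β) (hc : D γ) : D (β + γ) := by
  obtain ⟨m, n, h⟩ := hb
  obtain ⟨m', n', h'⟩ := hc
  refine ⟨m * 2 ^ n' + m' * 2 ^ n, n + n', ?_⟩
  push_cast
  rw [← h, ← h', pow_add]
  ring

theorem D_sub {β γ : ℚ} (hb : D β) (hc : D γ) (hle : γ ≤ β) : D (β - γ) := by
  obtain ⟨m, n, h⟩ := hb
  obtain ⟨m', n', h'⟩ := hc
  have hle' : m' * 2 ^ n ≤ m * 2 ^ n' := by
    have : (m' : ℚ) * 2 ^ n ≤ (m : ℚ) * 2 ^ n' := by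
      rw [← h, ← h']
      have h2 : (0 : ℚ) ≤ 2 ^ n * 2 ^ n' := by positivity
      nlinarith [mul_le_mul_of_nonneg_right hle h2]
    exact_mod_cast this
  refine ⟨m * 2 ^ n' - m' * 2 ^ n, n + n', ?_⟩
  rw [Nat.cast_sub hle']
  push_cast
  rw [← h, ← h', pow_add]
  ring

theorem D_zpow_mul (k : ℤ) {β : ℚ} (hb : D β) : D (2 ^ k * β) := by
  obtain ⟨m, n, h⟩ := hb
  obtain ⟨j, hj | hj⟩ := k.eq_nat_or_neg
  · refine ⟨2 ^ j * m, n, ?_⟩
    push_cast
    rw [← h, hj, zpow_natCast]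
    ring
  · refine ⟨m, n + j, ?_⟩
    rw [← h, hj, zpow_neg, zpow_natCast, pow_add]
    have h2 : (2 : ℚ) ^ j ≠ 0 := pow_ne_zero _ two_ne_zero
    field_simp

/-- The monoid of all maps `t ↦ 2 ^ k * t + β` with `k ∈ ℤ` and `β ≥ 0` dyadic. -/
def HH : Submonoid (Equiv.Perm ℚ) where
  carrier := {f | ∃ k : ℤ, ∃ β : ℚ, D β ∧ f = aff k β}
  one_mem' := ⟨0, 0, ⟨0, 0, by simp⟩, aff_zero_zero.symm⟩
  mul_mem' := by
    rintro f g ⟨k, β, hb, rfl⟩ ⟨l, γ, hc, rfl⟩
    exact ⟨k + l, 2 ^ k * γ + β, D_add (D_zpow_mul k hc) hb, aff_mul k l β γ⟩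

theorem D_zero : D 0 := ⟨0, 0, by simp⟩

theorem aff_mem (k : ℤ) {β : ℚ} (hb : D β) : aff k β ∈ HH := ⟨k, β, hb, rfl⟩

/-- the element of the monoid given by `k` and `β` -/
def el (k : ℤ) (β : ℚ) (hb : D β) : HH := ⟨aff k β, aff_mem k hb⟩

theorem exists_el (x : HH) : ∃ (k : ℤ) (β : ℚ) (hb : D β), x = el k β hb := by
  obtain ⟨f, k, β, hb, rfl⟩ := x
  exact ⟨k, β, hb, rfl⟩

theorem isUnit_el_zero (k : ℤ) : IsUnit (el k 0 D_zero) := by
  refine ⟨⟨el k 0 D_zero, el (-k) 0 D_zero, ?_, ?_⟩, rfl⟩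
  · apply Subtype.ext
    change aff k 0 * aff (-k) 0 = 1
    rw [aff_mul, ← aff_zero_zero]
    simp
  · apply Subtype.ext
    change aff (-k) 0 * aff k 0 = 1
    rw [aff_mul, ← aff_zero_zero]
    simp

theorem not_isUnit_el {k : ℤ} {β : ℚ} {hb : D β} (hpos : 0 < β) : ¬ IsUnit (el k β hb) := by
  intro h
  obtain ⟨w, hw⟩ := h.exists_right_inv
  obtain ⟨l, γ, hc, rfl⟩ := exists_el w
  have h1 : aff k β * aff l γ = aff 0 0 := by
    rw [aff_zero_zero]
    exact congrArg Subtype.val hw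
  rw [aff_mul] at h1
  have h2 := aff_inj h1
  have h3 : (0 : ℚ) ≤ 2 ^ k * γ := mul_nonneg (zpow_nonneg zero_le_two _) (D_nonneg hc)
  linarith

/-- Any non-unit lies in the principal ideal of any other non-unit. -/
theorem key (x y : HH) (hx : ¬ IsUnit x) (hy : ¬ IsUnit y) : ∃ u v : HH, u * x * v = y := by
  obtain ⟨k, β, hb, rfl⟩ := exists_el x
  obtain ⟨l, γ, hc, rfl⟩ := exists_el y
  have hγ : 0 < γ := by
    rcases (D_nonneg hc).lt_or_eq with h | h
    · exact h
    · exact absurd (by subst h; exact isUnit_el_zero l) hy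
  have hβ : 0 ≤ β := D_nonneg hb
  obtain ⟨n, hn⟩ := exists_nat_gt (β / γ)
  have hn2 : (n : ℚ) < 2 ^ n := by exact_mod_cast n.lt_two_pow_self
  have h2n : (0 : ℚ) < 2 ^ n := by positivity
  have hle : (2 : ℚ) ^ (-(n : ℤ)) * β ≤ γ := by
    rw [zpow_neg, zpow_natCast, inv_mul_le_iff₀ h2n]
    have : β / γ < 2 ^ n := hn.trans hn2
    rw [div_lt_iff₀ hγ] at this
    exact this.le
  refine ⟨el (-(n : ℤ)) (γ - 2 ^ (-(n : ℤ)) * β) (D_sub hc (D_zpow_mul _ hb) hle),
    el (l - k + n) 0 D_zero, ?_⟩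
  apply Subtype.ext
  change aff _ _ * aff _ _ * aff _ _ = aff _ _
  rw [aff_mul, aff_mul]
  congr 1
  · ring
  · ring

theorem principalIdeal_of_isUnit {x : HH} (hx : IsUnit x) : principalIdeal x = Set.univ := by
  obtain ⟨u, rfl⟩ := hx
  apply Set.eq_univ_of_forall
  intro z
  exact ⟨z * (↑u⁻¹ : HH), 1, by simp⟩

theorem principalIdeal_le {x y : HH} (hx : ¬ IsUnit x) (hy : ¬ IsUnit y) :
    principalIdeal x ⊆ principalIdeal y := by
  rintro z ⟨a, b, rfl⟩
  obtain ⟨u, v, huv⟩ := key y x hy hx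
  refine ⟨a * u, v * b, ?_⟩
  rw [← huv]
  simp only [mul_assoc]

theorem accp : ACCP HH := by
  rintro ⟨a, ha⟩
  have h0 : ¬ IsUnit (a 0) := by
    intro h
    have := ha 0
    rw [principalIdeal_of_isUnit h] at this
    exact this.2 (Set.subset_univ _)
  have h1 : ¬ IsUnit (a 1) := by
    intro h
    have := ha 1
    rw [principalIdeal_of_isUnit h] at this
    exact this.2 (Set.subset_univ _)
  exact (ha 0).2 (principalIdeal_le h1 h0)

theorem fg : Monoid.FG HH := by
  rw [Monoid.fg_iff]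
  refine ⟨{el 1 0 D_zero, el (-1) 0 D_zero, el 0 1 ⟨1, 0, by simp⟩}, ?_, by simp⟩
  rw [Submonoid.eq_top_iff']
  set C := Submonoid.closure
    ({el 1 0 D_zero, el (-1) 0 D_zero, el 0 1 ⟨1, 0, by simp⟩} : Set HH) with hC
  have m1 : el 1 0 D_zero ∈ C := Submonoid.subset_closure (by simp)
  have m2 : el (-1) 0 D_zero ∈ C := Submonoid.subset_closure (by simp)
  have m3 : el 0 1 ⟨1, 0, by simp⟩ ∈ C := Submonoid.subset_closure (by simp)
  have hpos : ∀ n : ℕ, el (n : ℤ) 0 D_zero ∈ C := by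
    intro n
    induction n with
    | zero =>
      have : el ((0 : ℕ) : ℤ) 0 D_zero = 1 := Subtype.ext (by simpa [el] using aff_zero_zero)
      rw [this]
      exact one_mem _
    | succ n ih =>
      have : el ((n + 1 : ℕ) : ℤ) 0 D_zero = el (n : ℤ) 0 D_zero * el 1 0 D_zero := by
        apply Subtype.ext
        change aff _ _ = aff _ _ * aff _ _
        rw [aff_mul]
        simp
      rw [this]
      exact mul_mem ih m1
  have hneg : ∀ n : ℕ, el (-(n : ℤ)) 0 D_zero ∈ C := by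
    intro n
    induction n with
    | zero =>
      have : el (-((0 : ℕ) : ℤ)) 0 D_zero = 1 := Subtype.ext (by simpa [el] using aff_zero_zero)
      rw [this]
      exact one_mem _
    | succ n ih =>
      have : el (-((n + 1 : ℕ) : ℤ)) 0 D_zero = el (-(n : ℤ)) 0 D_zero * el (-1) 0 D_zero := by
        apply Subtype.ext
        change aff _ _ = aff _ _ * aff _ _
        rw [aff_mul]
        congr 1
        · push_cast
          ring
        · simp
      rw [this]
      exact mul_mem ih m2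
  have hdil : ∀ k : ℤ, el k 0 D_zero ∈ C := by
    intro k
    obtain ⟨n, rfl | rfl⟩ := k.eq_nat_or_neg
    · exact hpos n
    · exact hneg n
  have hint : ∀ m : ℕ, el 0 (m : ℚ) ⟨m, 0, by simp⟩ ∈ C := by
    intro m
    induction m with
    | zero =>
      have : el 0 ((0 : ℕ) : ℚ) ⟨0, 0, by simp⟩ = 1 :=
        Subtype.ext (by simpa [el] using aff_zero_zero)
      rw [this]
      exact one_mem _
    | succ m ih =>
      have : el 0 ((m + 1 : ℕ) : ℚ) ⟨m + 1, 0, by simp⟩
          = el 0 (m : ℚ) ⟨m, 0, by simp⟩ * el 0 1 ⟨1, 0, by simp⟩ := by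
        apply Subtype.ext
        change aff _ _ = aff _ _ * aff _ _
        rw [aff_mul]
        congr 1
        push_cast
        simp
        ring
      rw [this]
      exact mul_mem ih m3
  intro x
  obtain ⟨k, β, hb, rfl⟩ := exists_el x
  obtain ⟨m, n, h⟩ := id hb
  have : el k β hb = el (-(n : ℤ)) 0 D_zero * el 0 (m : ℚ) ⟨m, 0, by simp⟩
      * el (n + k) 0 D_zero := by
    apply Subtype.ext
    change aff _ _ = aff _ _ * aff _ _ * aff _ _
    rw [aff_mul, aff_mul]
    congr 1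
    · ring
    · rw [← h, zpow_neg, zpow_natCast]
      have h2 : (2 : ℚ) ^ n ≠ 0 := pow_ne_zero _ two_ne_zero
      field_simp
      ring
  rw [this]
  exact mul_mem (mul_mem (hdil _) (hint m)) (hdil _)

/-- There is a finitely generated cancellative (in particular unit-cancellative) monoid `H`
which satisfies the ACCP but is not acyclic. -/
theorem result : ∃ (H : Type) (_ : Monoid H),
    (∀ a b c : H, a * b = a * c → b = c) ∧ (∀ a b c : H, b * a = c * a → b = c) ∧
    UnitCancellative H ∧ Monoid.FG H ∧ ACCP H ∧ ¬ Acyclic H := by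
  refine ⟨HH, inferInstance, ?_, ?_, ?_, fg, accp, ?_⟩
  · intro a b c h
    exact mul_left_cancel h
  · intro a b c h
    exact mul_right_cancel h
  · intro x y hy
    constructor
    · intro h
      apply hy
      have : y = 1 := mul_left_cancel (a := x) (by rw [h, mul_one])
      rw [this]
      exact isUnit_one
    · intro h
      apply hy
      have : y = 1 := mul_right_cancel (b := x) (by rw [h, one_mul])
      rw [this]
      exact isUnit_one
  · intro h
    have hhalf : D (1 / 2) := ⟨1, 1, by norm_num⟩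
    have hone : D 1 := ⟨1, 0, by simp⟩
    refine h (el (-1) (1 / 2) hhalf) (el 1 0 D_zero) (el 0 1 hone)
      (Or.inl (not_isUnit_el (by norm_num))) ?_
    apply Subtype.ext
    change aff _ _ * aff _ _ * aff _ _ = aff _ _
    rw [aff_mul, aff_mul]
    norm_num

end Pool.Agent.Results.MP_1d13cc_al.FgCancellativeCounterexample
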